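import Pool.Agent.H55.CG.Targets

/-!
# Row GIN of cog_modules: integrability of powers of the group functional
-/

set_option autoImplicit false

open MeasureTheory ProbabilityTheory Filter Topology
open Pool.Agent.H95 Pool.Agent.H95.Cop
open Pool.Agent.H55.CG

namespace Pool.Agent.H86.CG

theorem pf_GIN (hEXC : T_EXC) (hMSG : T_MSG) (hGGS : T_GGS) : T_GIN := by
  intro K ν _ hν s ℓ t t' n hs hℓ hn
  obtain ⟨hV, hg0, -, hmass⟩ := hGGS K ℓ hℓ
  have hm := hmass n hn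
  have hmeas := (hMSG K ℓ 1 t t' n).1
  set P : Finset (Σ _ : ℕ, ℕ) :=
    (Finset.Ico ((2 * n - 1) * ℓ) (2 * n * ℓ)).sigma (fun y => Finset.Ico y (2 * n * ℓ)) with hP
  have hgg : ∀ x, gg K ℓ t n t' x = (∑ p ∈ P, uu (kk K) (p.2 - p.1) *
      Real.exp (ex ℓ t n t' x p.1 p.2)) / VV K ℓ := by
    intro x
    unfold gg
    rw [hP, Finset.sum_sigma]
  have hVV : ∑ p ∈ P, uu (kk K) (p.2 - p.1) = VV K ℓ := by
    rw [hP, Finset.sum_sigma]
    exact hm
  have hu : ∀ d, 0 ≤ uu (kk K) d := uu_nonneg _ (fun n => ENNReal.toReal_nonneg)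
  have hPne : P.Nonempty := by
    rw [Finset.nonempty_iff_ne_empty]
    intro h
    rw [h, Finset.sum_empty] at hVV
    rw [← hVV] at hV
    exact lt_irrefl _ hV
  have hbound : ∀ x, gg K ℓ t n t' x ^ s ≤ ∑ p ∈ P, Real.exp (s * ex ℓ t n t' x p.1 p.2) := by
    intro x
    obtain ⟨p0, hp0, hmax⟩ := P.exists_max_image (fun p => ex ℓ t n t' x p.1 p.2) hPne
    have h1 : gg K ℓ t n t' x ≤ Real.exp (ex ℓ t n t' x p0.1 p0.2) := by
      rw [hgg x, div_le_iff₀ hV, ← hVV, Finset.mul_sum]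
      apply Finset.sum_le_sum
      intro p hp
      rw [mul_comm]
      exact mul_le_mul_of_nonneg_right (Real.exp_le_exp.2 (hmax p hp)) (hu _)
    have h2 : gg K ℓ t n t' x ^ s ≤ Real.exp (s * ex ℓ t n t' x p0.1 p0.2) := by
      refine (Real.rpow_le_rpow (hg0 _ _ _ _) h1 hs.le).trans (le_of_eq ?_)
      rw [← Real.exp_mul, mul_comm]
    refine h2.trans ?_
    exact Finset.single_le_sum (f := fun p : (Σ _ : ℕ, ℕ) => Real.exp (s * ex ℓ t n t' x p.1 p.2))
      (fun p _ => (Real.exp_pos _).le) hp0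
  have hint : Integrable (fun x => ∑ p ∈ P, Real.exp (s * ex ℓ t n t' x p.1 p.2)) (iid ν) := by
    apply integrable_finsetSum
    intro p hp
    rw [hP, Finset.mem_sigma, Finset.mem_Ico, Finset.mem_Ico] at hp
    have h := (hEXC ν hν s 0 ℓ t t' n 0 0 p.1 p.2 hℓ hn le_rfl (Nat.zero_le _) hp.1.1 hp.2.1
      hp.2.2).1
    simpa using h
  refine hint.mono' ((hmeas.pow_const s).aestronglyMeasurable) ?_
  refine Filter.Eventually.of_forall fun x => ?_
  rw [Real.norm_of_nonneg (Real.rpow_nonneg (hg0 _ _ _ _) s)]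
  exact hbound x

end Pool.Agent.H86.CG
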