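import Pool.Agent.H55.CG.Targets

/-!
# Row SNU of cog_modules: the sum is at least two
-/

set_option autoImplicit false

open Pool.Agent.H55.CG

namespace Pool.Agent.H86.CG

theorem tele (m N : ℕ) (h : m ≤ N) :
    1 / 2 * (Real.log ((N : ℝ) + 1) - Real.log ((m : ℝ) + 1)) ≤
      ∑ u ∈ Finset.Ico m N, 1 / (2 * (u : ℝ) + 1) := by
  induction N, h using Nat.le_induction with
  | base => simp
  | succ N hN ih =>
    rw [Finset.sum_Ico_succ_top hN]
    have h0 : (0 : ℝ) ≤ N := Nat.cast_nonneg N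
    have h1 : Real.log (((N + 1 : ℕ) : ℝ) + 1) - Real.log ((N : ℝ) + 1) ≤ 1 / ((N : ℝ) + 1) := by
      rw [← Real.log_div (by positivity) (by positivity)]
      have h2 := Real.log_le_sub_one_of_pos
        (show (0 : ℝ) < (((N + 1 : ℕ) : ℝ) + 1) / ((N : ℝ) + 1) by positivity)
      refine h2.trans (le_of_eq ?_)
      push_cast
      field_simp
      ring
    have h3 : 1 / 2 * (1 / ((N : ℝ) + 1)) ≤ 1 / (2 * (N : ℝ) + 1) := by
      have h31 : 1 / 2 * (1 / ((N : ℝ) + 1)) = 1 / (2 * ((N : ℝ) + 1)) := by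
        field_simp
      rw [h31]
      apply one_div_le_one_div_of_le (by positivity)
      linarith
    have h4 : 1 / 2 * (Real.log (((N + 1 : ℕ) : ℝ) + 1) - Real.log ((m : ℝ) + 1)) =
        1 / 2 * (Real.log ((N : ℝ) + 1) - Real.log ((m : ℝ) + 1)) +
        1 / 2 * (Real.log (((N + 1 : ℕ) : ℝ) + 1) - Real.log ((N : ℝ) + 1)) := by ring
    rw [h4]
    have h5 : 1 / 2 * (Real.log (((N + 1 : ℕ) : ℝ) + 1) - Real.log ((N : ℝ) + 1)) ≤
        1 / 2 * (1 / ((N : ℝ) + 1)) := by linarith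
    linarith

theorem pf_SNU : T_SNU := by
  intro q c hc hc1 hq
  have hc2 : c ^ 2 ≤ 1 := by nlinarith
  have hq32 : (32 : ℝ) ≤ q := by
    refine le_trans ?_ hq
    rw [le_div_iff₀ (by positivity)]
    nlinarith
  have hq32' : 32 ≤ q := by exact_mod_cast hq32
  -- the second sum
  have h2 : c / 4 ≤ ∑ v ∈ Finset.Ico q (2 * q), c / (2 * (v : ℝ) + 1) := by
    have h : ∀ v ∈ Finset.Ico q (2 * q), c / (4 * q) ≤ c / (2 * (v : ℝ) + 1) := by
      intro v hv
      rw [Finset.mem_Ico] at hv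
      apply div_le_div_of_nonneg_left hc.le (by positivity)
      have : 2 * v + 1 ≤ 4 * q := by omega
      exact_mod_cast this
    have h' := Finset.sum_le_sum h
    rw [Finset.sum_const, Nat.card_Ico, show 2 * q - q = q by omega, nsmul_eq_mul] at h'
    refine le_trans (le_of_eq ?_) h'
    field_simp
  -- the first sum
  have h1 : q * c / 4 ≤ ∑ u ∈ Finset.Icc (2 * q) (8 ^ (q - 1)), c / (2 * (u : ℝ) + 1) := by
    have hle : 2 * q ≤ 8 ^ (q - 1) + 1 := by
      have : q ≤ 8 ^ (q - 1) / 2 := by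
        have h8 : ∀ n : ℕ, 1 ≤ n → (n + 1) * 2 ≤ 8 ^ n := by
          intro n hn
          induction n, hn using Nat.le_induction with
          | base => norm_num
          | succ n hn ih =>
            rw [pow_succ]
            omega
        have := h8 (q - 1) (by omega)
        omega
      omega
    have ht := tele (2 * q) (8 ^ (q - 1) + 1) hle
    have hset : Finset.Ico (2 * q) (8 ^ (q - 1) + 1) = Finset.Icc (2 * q) (8 ^ (q - 1)) := by
      ext u
      rw [Finset.mem_Ico, Finset.mem_Icc]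
      omega
    rw [hset] at ht
    have hsum : ∑ u ∈ Finset.Icc (2 * q) (8 ^ (q - 1)), c / (2 * (u : ℝ) + 1) =
        c * ∑ u ∈ Finset.Icc (2 * q) (8 ^ (q - 1)), 1 / (2 * (u : ℝ) + 1) := by
      rw [Finset.mul_sum]
      apply Finset.sum_congr rfl
      intro u _
      ring
    rw [hsum]
    have hlog1 : 3 * ((q : ℝ) - 1) * Real.log 2 ≤
        Real.log (((8 ^ (q - 1) + 1 : ℕ) : ℝ) + 1) := by
      have e1 : (8 : ℝ) ^ (q - 1) ≤ ((8 ^ (q - 1) + 1 : ℕ) : ℝ) + 1 := by
        push_cast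
        linarith
      have e2 := Real.log_le_log (by positivity) e1
      rw [Real.log_pow, show (8 : ℝ) = 2 ^ (3 : ℕ) by norm_num, Real.log_pow] at e2
      have e3 : ((q - 1 : ℕ) : ℝ) = (q : ℝ) - 1 := by
        rw [Nat.cast_sub (by omega)]
        simp
      rw [e3] at e2
      refine le_trans (le_of_eq ?_) e2
      push_cast
      ring
    have hlog2 : Real.log (((2 * q : ℕ) : ℝ) + 1) ≤ (2 * (q : ℝ) + 1) / 4 - 1 + 2 * Real.log 2 := by
      have e1 := Real.log_le_sub_one_of_pos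
        (show (0 : ℝ) < (2 * (q : ℝ) + 1) / 4 by positivity)
      rw [Real.log_div (by positivity) (by norm_num), show (4 : ℝ) = 2 ^ (2 : ℕ) by norm_num,
        Real.log_pow] at e1
      push_cast at e1 ⊢
      linarith
    have hl2 := Real.log_two_gt_d9
    have hl2' := Real.log_two_lt_d9
    have hfin : (q : ℝ) / 4 ≤ ∑ u ∈ Finset.Icc (2 * q) (8 ^ (q - 1)), 1 / (2 * (u : ℝ) + 1) := by
      refine le_trans ?_ ht
      have e4 : 2 * ((q : ℝ) - 1) ≤ 3 * ((q : ℝ) - 1) * Real.log 2 := by nlinarith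
      linarith
    have := mul_le_mul_of_nonneg_left hfin hc.le
    refine le_trans (le_of_eq ?_) this
    ring
  have h3 : (2 : ℝ) ≤ q * c / 4 * (c / 4) := by
    have : 32 ≤ (q : ℝ) * c ^ 2 := by
      rwa [div_le_iff₀ (by positivity)] at hq
    nlinarith
  refine h3.trans (mul_le_mul h1 h2 (by positivity) ?_)
  exact le_trans (by positivity) h1

end Pool.Agent.H86.CG
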